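import Mathlib
import Pool.Agent.helper25.B2.Sol
import Pool.Agent.helper15.B2.FL
import Pool.Agent.helper15.B2.FF

/-! # MP_b2b189_gt (S13780): shape invariance -/

set_option autoImplicit false

namespace Pool.Agent.helper25.B2

open Set Filter Topology Metric Asymptotics

variable {E : Type*} [NormedAddCommGroup E] [NormedSpace ℝ E]

/-- second order Taylor estimate near a point. -/
theorem FS_taylor_loc {f : E → ℝ} {x₀ : E} (hf : ContDiffAt ℝ 2 f x₀) :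
    ∃ ε > (0 : ℝ), ∃ C : ℝ, 0 ≤ C ∧ ∀ x ∈ ball x₀ ε, ∀ y : E, ‖y - x‖ < ε →
      |f y - f x - fderiv ℝ f x (y - x)| ≤ C * ‖y - x‖ ^ 2 := by
  have h1 : ContDiffAt ℝ 1 (fderiv ℝ f) x₀ := hf.fderiv_right (by norm_num)
  obtain ⟨L, s, hs, hl⟩ := h1.exists_lipschitzOnWith
  have h2 : ∀ᶠ x in 𝓝 x₀, ContDiffAt ℝ 2 f x := hf.eventually (by simp)
  obtain ⟨ε, hε, hball⟩ := Metric.eventually_nhds_iff_ball.1 (h2.and hs)
  refine ⟨ε / 2, by linarith, L, L.2, fun x hx y hy => ?_⟩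
  have hx' : x ∈ ball x₀ ε := ball_subset_ball (by linarith) hx
  have hy' : y ∈ ball x₀ ε := by
    rw [mem_ball] at hx ⊢
    rw [← dist_eq_norm] at hy
    calc dist y x₀ ≤ dist y x + dist x x₀ := dist_triangle _ _ _
      _ < ε := by linarith
  have hseg : segment ℝ x y ⊆ ball x₀ ε := (convex_ball x₀ ε).segment_subset hx' hy'
  have hconv : Convex ℝ (segment ℝ x y) := convex_segment x y
  have hd : ∀ z ∈ segment ℝ x y, HasFDerivWithinAt f (fderiv ℝ f z) (segment ℝ x y) z := by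
    intro z hz
    exact ((hball z (hseg hz)).1.differentiableAt (by norm_num)).hasFDerivAt.hasFDerivWithinAt
  have hbd : ∀ z ∈ segment ℝ x y, ‖fderiv ℝ f z - fderiv ℝ f x‖ ≤ L * ‖y - x‖ := by
    intro z hz
    have h3 := hl.dist_le_mul z (hball z (hseg hz)).2 x (hball x hx').2
    rw [dist_eq_norm, dist_eq_norm] at h3
    have h4 : ‖z - x‖ ≤ ‖y - x‖ := norm_sub_le_of_mem_segment hz
    exact h3.trans (by gcongr)
  have h5 := hconv.norm_image_sub_le_of_norm_hasFDerivWithin_le' hd hbd (left_mem_segment ℝ x y)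
    (right_mem_segment ℝ x y)
  rw [Real.norm_eq_abs] at h5
  calc _ ≤ L * ‖y - x‖ * ‖y - x‖ := h5
    _ = _ := by ring

theorem FS_taylor {Ω K : Set E} {f : E → ℝ} (hf : ∀ x ∈ Ω, ContDiffAt ℝ 2 f x)
    (hK : IsCompact K) (hKΩ : K ⊆ Ω) :
    ∃ ε > (0 : ℝ), ∃ C : ℝ, 0 ≤ C ∧ ∀ x ∈ K, ∀ y : E, ‖y - x‖ < ε →
      |f y - f x - fderiv ℝ f x (y - x)| ≤ C * ‖y - x‖ ^ 2 := by
  refine IsCompact.induction_on (p := fun S : Set E => ∃ ε > (0 : ℝ), ∃ C : ℝ, 0 ≤ C ∧ ∀ x ∈ S,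
    ∀ y : E, ‖y - x‖ < ε → |f y - f x - fderiv ℝ f x (y - x)| ≤ C * ‖y - x‖ ^ 2) hK ?_ ?_ ?_ ?_
  · exact ⟨1, one_pos, 0, le_rfl, fun x hx => absurd hx (notMem_empty x)⟩
  · rintro s t hst ⟨r, hr, C, hC, h⟩
    exact ⟨r, hr, C, hC, fun x hx => h x (hst hx)⟩
  · rintro s t ⟨r, hr, C, hC, h⟩ ⟨r', hr', C', hC', h'⟩
    refine ⟨min r r', lt_min hr hr', max C C', le_max_of_le_left hC, ?_⟩
    rintro x (hx | hx) y hy
    · exact (h x hx y (lt_of_lt_of_le hy (min_le_left _ _))).trans (by gcongr; exact le_max_left _ _)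
    · exact (h' x hx y (lt_of_lt_of_le hy (min_le_right _ _))).trans (by gcongr; exact le_max_right _ _)
  · intro x hx
    obtain ⟨ε, hε, C, hC, h⟩ := FS_taylor_loc (hf x (hKΩ hx))
    exact ⟨ball x ε, mem_nhdsWithin_of_mem_nhds (ball_mem_nhds x hε), ε, hε, C, hC, h⟩

/-- `L_X θ = 0` for a closed form with `θ(X) = 1`. -/
theorem FS_inv {X : E → E} {Ω : Set E} (hΩ : IsOpen Ω)
    (hX : ∀ x ∈ Ω, ContDiffAt ℝ 2 X x) {θ : E → E →L[ℝ] ℝ} (hθ : ∀ x ∈ Ω, ContDiffAt ℝ 1 θ x)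
    (hclosed : ∀ x ∈ Ω, ∀ v w : E, fderiv ℝ θ x v w = fderiv ℝ θ x w v)
    (hθX : ∀ x ∈ Ω, θ x (X x) = 1) :
    ∀ x ∈ Ω, ∀ w : E, fderiv ℝ θ x (X x) w + θ x (fderiv ℝ X x w) = 0 := by
  intro x hx w
  have h1 : HasFDerivAt θ (fderiv ℝ θ x) x := ((hθ x hx).differentiableAt (by norm_num)).hasFDerivAt
  have h2 : HasFDerivAt X (fderiv ℝ X x) x := ((hX x hx).differentiableAt (by norm_num)).hasFDerivAt
  have h3 := h1.clm_apply h2
  have h4 : HasFDerivAt (fun y => θ y (X y)) (0 : E →L[ℝ] ℝ) x := by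
    refine (hasFDerivAt_const (1 : ℝ) x).congr_of_eventuallyEq ?_
    filter_upwards [hΩ.mem_nhds hx] with y hy
    exact hθX y hy
  have h5 := congrArg (fun L : E →L[ℝ] ℝ => L w) (h3.unique h4)
  simp only [add_apply, ContinuousLinearMap.comp_apply,
    ContinuousLinearMap.flip_apply, zero_apply] at h5
  rw [hclosed x hx (X x) w]
  linarith

/-- F5: shape invariance. `X` has a complete flow `Φ` on `Ω`, `θ` is closed with `θ(X) = 1`, `df = X(f) θ`.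
Then `f` along the orbit of `σ 1` is `f` along the orbit of `σ 0`, shifted by `∫ θ(σ')`. -/
theorem shape_invariance {X : E → E} {Ω : Set E} (hΩ : IsOpen Ω)
    (hX : ∀ x ∈ Ω, ContDiffAt ℝ 2 X x) {θ : E → E →L[ℝ] ℝ} (hθ : ∀ x ∈ Ω, ContDiffAt ℝ 1 θ x)
    (hclosed : ∀ x ∈ Ω, ∀ v w : E, fderiv ℝ θ x v w = fderiv ℝ θ x w v)
    (hθX : ∀ x ∈ Ω, θ x (X x) = 1)
    {f : E → ℝ} (hf : ∀ x ∈ Ω, ContDiffAt ℝ 2 f x)
    (hdf : ∀ x ∈ Ω, ∀ w : E, fderiv ℝ f x w = fderiv ℝ f x (X x) * θ x w)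
    {Φ : ℝ → E → E} (hΦ0 : ∀ x ∈ Ω, Φ 0 x = x) (hΦ : ∀ x ∈ Ω, Sol X Ω (fun t => Φ t x) univ)
    {σ σ' : ℝ → E} (hσΩ : ∀ r ∈ Icc (0:ℝ) 1, σ r ∈ Ω) (hσ : ∀ r ∈ Icc (0:ℝ) 1, HasDerivAt σ (σ' r) r)
    (hσ' : ContinuousOn σ' (Icc 0 1)) (t : ℝ) :
    f (Φ t (σ 1)) = f (Φ (t + ∫ r in (0:ℝ)..1, θ (σ r) (σ' r)) (σ 0)) := by
  have hinv := FS_inv hΩ hX hθ hclosed hθX
  have hX1 : ∀ x ∈ Ω, ContDiffAt ℝ 1 X x := fun x hx => (hX x hx).of_le (by norm_num)
  -- the primitive `ρ`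
  have hgc : ContinuousOn (fun r => θ (σ r) (σ' r)) (Icc (0:ℝ) 1) := by
    refine ContinuousOn.clm_apply (fun r hr => ?_) hσ'
    exact (ContinuousAt.comp (g := θ) (f := σ) (hθ _ (hσΩ r hr)).continuousAt
      (hσ r hr).continuousAt).continuousWithinAt
  set g : ℝ → ℝ := IccExtend (zero_le_one' ℝ) ((Icc (0:ℝ) 1).domRestrict fun r => θ (σ r) (σ' r)) with hg
  have hgcont : Continuous g := (continuousOn_iff_continuous_domRestrict.1 hgc).Icc_extend'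
  have hgeq : ∀ r ∈ Icc (0:ℝ) 1, g r = θ (σ r) (σ' r) := fun r hr => by
    rw [hg, IccExtend_of_mem _ _ hr]; rfl
  set ρ : ℝ → ℝ := fun r => ∫ s in (0:ℝ)..r, g s with hρ
  have hρd : ∀ r, HasDerivAt ρ (g r) r := fun r =>
    intervalIntegral.integral_hasDerivAt_right (hgcont.intervalIntegrable _ _)
      (hgcont.stronglyMeasurableAtFilter _ _) hgcont.continuousAt
  have hρ0 : ρ 0 = 0 := by simp [hρ]
  have hρ1 : ∫ r in (0:ℝ)..1, θ (σ r) (σ' r) = ρ 1 := by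
    refine intervalIntegral.integral_congr fun r hr => ?_
    rw [uIcc_of_le zero_le_one] at hr
    exact (hgeq r hr).symm
  rw [hρ1]
  set F : ℝ → ℝ := fun r => f (Φ (t + ρ 1 - ρ r) (σ r)) with hF
  have hmain : ∀ r₀ ∈ Icc (0:ℝ) 1, HasDerivWithinAt F 0 (Icc 0 1) r₀ := by
    intro r₀ hr₀
    set s₀ : ℝ := t + ρ 1 - ρ r₀ with hs₀
    set γ : ℝ → E := fun s => Φ s (σ r₀) with hγ
    have hγsol : Sol X Ω γ univ := hΦ _ (hσΩ r₀ hr₀)
    have hγ0 : γ 0 = σ r₀ := hΦ0 _ (hσΩ r₀ hr₀)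
    set a : ℝ := -|s₀| - 1 with ha
    set b : ℝ := |s₀| + 1 with hb
    have ha0 : a ≤ 0 := by rw [ha]; linarith [abs_nonneg s₀]
    have hb0 : 0 ≤ b := by rw [hb]; linarith [abs_nonneg s₀]
    have hs₀ab : s₀ ∈ Ioo a b := by
      constructor
      · rw [ha]; linarith [neg_abs_le s₀]
      · rw [hb]; linarith [le_abs_self s₀]
    obtain ⟨δ₁, hδ₁, C₁, hC₁, hlip⟩ := sol_lipschitz hΩ hX1 ha0 hb0 (hγsol.mono (subset_univ (Icc a b)))
    obtain ⟨δ₂, hδ₂, C₂, hC₂, hform⟩ :=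
      sol_form_invariant hΩ hX hθ hinv ha0 hb0 (hγsol.mono (subset_univ (Icc a b)))
    obtain ⟨ε, hε, C₃, hC₃, htay⟩ := FS_taylor (Ω := Ω) hf
      (isCompact_Icc.image_of_continuousOn (hγsol.mono (subset_univ (Icc a b))).continuousOn)
      (by rintro _ ⟨s, _, rfl⟩; exact (hγsol s (mem_univ s)).1)
    -- the moving time and the moving curve
    set s' : ℝ → ℝ := fun r => t + ρ 1 - ρ r with hs'
    set D : ℝ → E := fun r => σ r - σ r₀ with hD
    set Y : ℝ → E := fun r => Φ (s' r) (σ r) - γ (s' r) with hY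
    have hs'd : HasDerivAt s' (-(g r₀)) r₀ := by
      simpa using (hρd r₀).const_sub (t + ρ 1)
    have hs'c : Tendsto s' (𝓝 r₀) (𝓝 s₀) := hs'd.continuousAt
    have hDc : Tendsto D (𝓝 r₀) (𝓝 0) := by
      simpa [hD] using (hσ r₀ hr₀).continuousAt.tendsto.sub_const (σ r₀)
    have hDo : (fun r => D r - (r - r₀) • σ' r₀) =o[𝓝 r₀] fun r => r - r₀ := by
      have := hasDerivAt_iff_isLittleO.1 (hσ r₀ hr₀)
      simpa [hD] using this
    have hDO : D =O[𝓝 r₀] fun r => r - r₀ := by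
      have h1 : (fun r => (r - r₀) • σ' r₀) =O[𝓝 r₀] fun r => r - r₀ := by
        refine IsBigO.of_bound ‖σ' r₀‖ (Eventually.of_forall fun r => ?_)
        rw [norm_smul, mul_comm]
      have h2 := hDo.isBigO.add h1
      simpa using h2
    have hDsq : (fun r => ‖D r‖ ^ 2) =o[𝓝 r₀] fun r => r - r₀ := by
      have h1 : (fun r => ‖D r‖ * ‖D r‖) =o[𝓝 r₀] fun r => (1 : ℝ) * (r - r₀) := by
        refine IsLittleO.mul_isBigO ?_ hDO.norm_left
        rw [isLittleO_one_iff]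
        simpa using hDc.norm
      simpa [sq] using h1
    -- closeness facts
    have hev : ∀ᶠ r in 𝓝[Icc 0 1] r₀, r ∈ Icc (0:ℝ) 1 ∧ s' r ∈ Icc a b ∧ ‖D r‖ < δ₁ ∧ ‖D r‖ < δ₂ ∧
        C₁ * ‖D r‖ < ε := by
      have h1 : ∀ᶠ r in 𝓝 r₀, s' r ∈ Ioo a b := hs'c.eventually (Ioo_mem_nhds hs₀ab.1 hs₀ab.2)
      have h2 : Tendsto (fun r => ‖D r‖) (𝓝 r₀) (𝓝 0) := by simpa using hDc.norm
      have h3 : Tendsto (fun r => C₁ * ‖D r‖) (𝓝 r₀) (𝓝 0) := by simpa using h2.const_mul C₁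
      have h4 := h2.eventually (Iio_mem_nhds hδ₁)
      have h5 := h2.eventually (Iio_mem_nhds hδ₂)
      have h6 := h3.eventually (Iio_mem_nhds hε)
      filter_upwards [self_mem_nhdsWithin, nhdsWithin_le_nhds h1, nhdsWithin_le_nhds h4,
        nhdsWithin_le_nhds h5, nhdsWithin_le_nhds h6] with r k1 k2 k3 k4 k5
      exact ⟨k1, Ioo_subset_Icc_self k2, k3, k4, k5⟩
    have hYb : ∀ᶠ r in 𝓝[Icc 0 1] r₀, ‖Y r‖ ≤ C₁ * ‖D r‖ ∧ ‖Y r‖ < ε ∧
        |θ (γ (s' r)) (Y r) - θ (σ r₀) (D r)| ≤ C₂ * ‖D r‖ ^ 2 := by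
      filter_upwards [hev] with r hr
      obtain ⟨k1, k2, k3, k4, k5⟩ := hr
      have hsol : Sol X Ω (fun s => Φ s (σ r)) (Icc a b) := (hΦ _ (hσΩ r k1)).mono (subset_univ _)
      have e0 : Φ 0 (σ r) = σ r := hΦ0 _ (hσΩ r k1)
      have h1 := hlip _ hsol (by rw [e0, hγ0]; exact k3) (s' r) k2
      have h2 := hform _ hsol (by rw [e0, hγ0]; exact k4) (s' r) k2
      rw [e0, hγ0] at h1 h2
      exact ⟨h1, lt_of_le_of_lt h1 k5, h2⟩
    -- the coefficient `X(f)` along `γ`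
    set c : ℝ → ℝ := fun s => fderiv ℝ f (γ s) (X (γ s)) with hc
    have hccont : ContinuousAt c s₀ := by
      have hm : γ s₀ ∈ Ω := (hγsol s₀ (mem_univ _)).1
      have h1 : ContinuousAt (fun x => fderiv ℝ f x (X x)) (γ s₀) :=
        ((hf _ hm).fderiv_right (m := 1) (by norm_num)).continuousAt.clm_apply (hX _ hm).continuousAt
      exact ContinuousAt.comp (g := fun x => fderiv ℝ f x (X x)) h1
        (hγsol s₀ (mem_univ _)).2.continuousAt
    have hcT : Tendsto (fun r => c (s' r)) (𝓝 r₀) (𝓝 (c s₀)) := hccont.tendsto.comp hs'c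
    have hcO : (fun r => c (s' r)) =O[𝓝 r₀] fun _ => (1 : ℝ) := hcT.isBigO_one ℝ
    -- the six terms
    have T1 : (fun r => f (Φ (s' r) (σ r)) - f (γ (s' r)) - c (s' r) * θ (γ (s' r)) (Y r))
        =o[𝓝[Icc 0 1] r₀] fun r => r - r₀ := by
      refine IsBigO.trans_isLittleO (IsBigO.of_bound (C₃ * C₁ ^ 2) ?_)
        (hDsq.mono nhdsWithin_le_nhds)
      filter_upwards [hev, hYb] with r hr hYr
      have hm : γ (s' r) ∈ Ω := (hγsol _ (mem_univ _)).1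
      have h1 := htay (γ (s' r)) ⟨s' r, hr.2.1, rfl⟩ (Φ (s' r) (σ r)) hYr.2.1
      rw [hdf _ hm] at h1
      rw [Real.norm_eq_abs, Real.norm_eq_abs, abs_of_nonneg (by positivity : (0:ℝ) ≤ ‖D r‖ ^ 2)]
      refine h1.trans ?_
      have h2 : ‖Φ (s' r) (σ r) - γ (s' r)‖ ^ 2 ≤ (C₁ * ‖D r‖) ^ 2 := by
        gcongr; exact hYr.1
      nlinarith
    have T2 : (fun r => c (s' r) * (θ (γ (s' r)) (Y r) - θ (σ r₀) (D r)))
        =o[𝓝[Icc 0 1] r₀] fun r => r - r₀ := by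
      have h1 : (fun r => θ (γ (s' r)) (Y r) - θ (σ r₀) (D r)) =o[𝓝[Icc 0 1] r₀] fun r => r - r₀ := by
        refine IsBigO.trans_isLittleO (IsBigO.of_bound C₂ ?_) (hDsq.mono nhdsWithin_le_nhds)
        filter_upwards [hYb] with r hYr
        rw [Real.norm_eq_abs, Real.norm_eq_abs, abs_of_nonneg (by positivity : (0:ℝ) ≤ ‖D r‖ ^ 2)]
        exact hYr.2.2
      simpa using (hcO.mono nhdsWithin_le_nhds).mul_isLittleO h1
    have T3 : (fun r => (c (s' r) - c s₀) * θ (σ r₀) (D r)) =o[𝓝[Icc 0 1] r₀] fun r => r - r₀ := by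
      have h1 : (fun r => c (s' r) - c s₀) =o[𝓝 r₀] fun _ => (1 : ℝ) := by
        rw [isLittleO_one_iff]
        simpa using hcT.sub_const (c s₀)
      have h2 : (fun r => θ (σ r₀) (D r)) =O[𝓝 r₀] fun r => r - r₀ :=
        ((θ (σ r₀)).isBigO_comp D (𝓝 r₀)).trans hDO
      simpa using (h1.mul_isBigO h2).mono nhdsWithin_le_nhds
    have T4 : (fun r => c s₀ * (θ (σ r₀) (D r) - (r - r₀) * g r₀)) =o[𝓝[Icc 0 1] r₀]
        fun r => r - r₀ := by
      have h1 : (fun r => θ (σ r₀) (D r - (r - r₀) • σ' r₀)) =o[𝓝 r₀] fun r => r - r₀ :=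
        ((θ (σ r₀)).isBigO_comp _ (𝓝 r₀)).trans_isLittleO hDo
      refine ((h1.const_mul_left (c s₀)).mono nhdsWithin_le_nhds).congr_left fun r => ?_
      rw [map_sub, map_smul, hgeq r₀ hr₀, smul_eq_mul]
    have T5 : (fun r => f (γ (s' r)) - f (γ s₀) - c s₀ * (s' r - s₀)) =o[𝓝[Icc 0 1] r₀]
        fun r => r - r₀ := by
      have hm : γ s₀ ∈ Ω := (hγsol s₀ (mem_univ _)).1
      have h1 : HasDerivAt (fun s => f (γ s)) (c s₀) s₀ :=
        ((hf _ hm).differentiableAt (by norm_num)).hasFDerivAt.comp_hasDerivAt s₀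
          (hγsol s₀ (mem_univ _)).2
      have h2 := (hasDerivAt_iff_isLittleO.1 h1).comp_tendsto hs'c
      have h3 : ((fun s => s - s₀) ∘ s') =O[𝓝 r₀] fun r => r - r₀ := by
        have := hs'd.isBigO_sub
        exact this
      refine ((h2.trans_isBigO h3).mono nhdsWithin_le_nhds).congr_left fun r => ?_
      simp only [Function.comp_apply, smul_eq_mul]
      ring
    have T6 : (fun r => c s₀ * (s' r - s₀ + (r - r₀) * g r₀)) =o[𝓝[Icc 0 1] r₀]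
        fun r => r - r₀ := by
      have h1 := hasDerivAt_iff_isLittleO.1 hs'd
      refine ((h1.const_mul_left (c s₀)).mono nhdsWithin_le_nhds).congr_left fun r => ?_
      simp only [smul_eq_mul]
      have e1 : s' r₀ = s₀ := rfl
      rw [e1]
      ring
    rw [hasDerivWithinAt_iff_isLittleO]
    refine (((((T1.add T2).add T3).add T4).add T5).add T6).congr_left fun r => ?_
    have e1 : F r = f (Φ (s' r) (σ r)) := rfl
    have e2 : F r₀ = f (γ s₀) := rfl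
    rw [e1, e2]
    simp only [smul_zero, sub_zero]
    ring
  have hconst := constant_of_derivWithin_zero (f := F) (a := 0) (b := 1)
    (fun r hr => (hmain r hr).differentiableWithinAt)
    (fun r hr => (hmain r (Ico_subset_Icc_self hr)).derivWithin
      (uniqueDiffOn_Icc zero_lt_one r (Ico_subset_Icc_self hr)))
  have h1 := hconst 1 ⟨zero_le_one, le_rfl⟩
  simp only [hF, hρ0, sub_zero, add_sub_cancel_right] at h1
  exact h1

end Pool.Agent.helper25.B2
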