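import Mathlib
import Pool.Agent.helper25.B2.Sol
import Pool.Agent.helper15.B2.FL

/-! # MP_b2b189_gt (S13780): solutions starting near a given one exist on the same interval -/

set_option autoImplicit false

namespace Pool.Agent.helper25.B2

open Set Filter Topology Metric

variable {E : Type*} [NormedAddCommGroup E] [NormedSpace ℝ E]

/-- local existence with uniform time and ball, staying in `Ω`. -/
theorem FN_local [CompleteSpace E] {X : E → E} {Ω : Set E} (hΩ : IsOpen Ω) {x₀ : E} (hx₀ : x₀ ∈ Ω)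
    (hX : ContDiffAt ℝ 1 X x₀) :
    ∃ r > (0 : ℝ), ∃ ε > (0 : ℝ), ∀ x ∈ closedBall x₀ r, ∃ γ : ℝ → E, γ 0 = x ∧
      Sol X Ω γ (Ioo (-ε) ε) := by
  obtain ⟨ε, hε, a, r, L, K, hr, hpl⟩ := IsPicardLindelof.of_contDiffAt_one hX
  obtain ⟨α, hα, hc⟩ := (hpl 0).exists_forall_mem_closedBall_eq_hasDerivWithinAt_continuousOn
  have hr' : (0 : ℝ) < r := hr
  have hmem : ((x₀, (0 : ℝ)) : E × ℝ) ∈ closedBall x₀ r ×ˢ Icc (0 - ε) (0 + ε) :=
    ⟨mem_closedBall_self hr'.le, by constructor <;> linarith⟩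
  have hα0 : α (x₀, 0) = x₀ := (hα x₀ (mem_closedBall_self hr'.le)).1
  have h1 : ∀ᶠ p in 𝓝 ((x₀, (0 : ℝ)) : E × ℝ), α p ∈ Ω := by
    have h2 := hc _ hmem
    have h3 : closedBall x₀ r ×ˢ Icc (0 - ε) (0 + ε) ∈ 𝓝 ((x₀, (0 : ℝ)) : E × ℝ) :=
      prod_mem_nhds (closedBall_mem_nhds x₀ hr') (Icc_mem_nhds (by linarith) (by linarith))
    have h4 : ContinuousAt α (x₀, 0) := h2.continuousAt h3
    exact h4.eventually_mem (hΩ.mem_nhds (by rw [hα0]; exact hx₀))
  rw [nhds_prod_eq, Filter.eventually_prod_iff] at h1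
  obtain ⟨pa, hpa, pb, hpb, hab⟩ := h1
  obtain ⟨r₁, hr₁, hr₁'⟩ := Metric.eventually_nhds_iff.1 hpa
  obtain ⟨ε₁, hε₁, hε₁'⟩ := Metric.eventually_nhds_iff.1 hpb
  refine ⟨min r (r₁ / 2), lt_min hr' (by linarith), min ε ε₁, lt_min hε hε₁, fun x hx => ?_⟩
  have hxr : x ∈ closedBall x₀ r := closedBall_subset_closedBall (min_le_left _ _) hx
  have hx1 : pa x := hr₁' (by
    have := mem_closedBall.1 hx
    have h5 := min_le_right (r : ℝ) (r₁ / 2)
    linarith)
  refine ⟨fun t => α (x, t), (hα x hxr).1, fun t ht => ⟨?_, ?_⟩⟩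
  · refine hab hx1 (hε₁' ?_)
    rw [Real.dist_eq, sub_zero, abs_lt]
    have h5 := min_le_right ε ε₁
    constructor <;> linarith [ht.1, ht.2]
  · have h5 := min_le_left ε ε₁
    refine ((hα x hxr).2 t ⟨by linarith [ht.1], by linarith [ht.2]⟩).hasDerivAt
      (Icc_mem_nhds (by linarith [ht.1]) (by linarith [ht.2]))

/-- uniform version on compact sets. -/
theorem FN_unif [CompleteSpace E] {X : E → E} {Ω K : Set E} (hΩ : IsOpen Ω)
    (hX : ∀ x ∈ Ω, ContDiffAt ℝ 1 X x) (hK : IsCompact K) (hKΩ : K ⊆ Ω) :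
    ∃ r > (0 : ℝ), ∃ δ > (0 : ℝ), ∀ x ∈ K, ∀ y ∈ closedBall x r, ∃ γ : ℝ → E, γ 0 = y ∧
      Sol X Ω γ (Ioo (-δ) δ) := by
  refine IsCompact.induction_on (p := fun S : Set E => ∃ r > (0 : ℝ), ∃ δ > (0 : ℝ),
    ∀ x ∈ S, ∀ y ∈ closedBall x r, ∃ γ : ℝ → E, γ 0 = y ∧ Sol X Ω γ (Ioo (-δ) δ)) hK ?_ ?_ ?_ ?_
  · exact ⟨1, one_pos, 1, one_pos, fun x hx => absurd hx (notMem_empty x)⟩
  · rintro s t hst ⟨r, hr, δ, hδ, h⟩
    exact ⟨r, hr, δ, hδ, fun x hx => h x (hst hx)⟩
  · rintro s t ⟨r, hr, δ, hδ, h⟩ ⟨r', hr', δ', hδ', h'⟩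
    refine ⟨min r r', lt_min hr hr', min δ δ', lt_min hδ hδ', ?_⟩
    rintro x (hx | hx) y hy
    · obtain ⟨γ, h1, h2⟩ := h x hx y (closedBall_subset_closedBall (min_le_left _ _) hy)
      exact ⟨γ, h1, h2.mono (Ioo_subset_Ioo (neg_le_neg (min_le_left _ _)) (min_le_left _ _))⟩
    · obtain ⟨γ, h1, h2⟩ := h' x hx y (closedBall_subset_closedBall (min_le_right _ _) hy)
      exact ⟨γ, h1, h2.mono (Ioo_subset_Ioo (neg_le_neg (min_le_right _ _)) (min_le_right _ _))⟩
  · intro x hx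
    obtain ⟨r, hr, δ, hδ, h⟩ := FN_local hΩ (hKΩ hx) (hX x (hKΩ hx))
    refine ⟨ball x (r / 2), mem_nhdsWithin_of_mem_nhds (ball_mem_nhds x (by linarith)),
      r / 2, by linarith, δ, hδ, fun z hz y hy => h y ?_⟩
    rw [mem_closedBall] at hy ⊢
    have h1 := mem_ball.1 hz
    calc dist y x ≤ dist y z + dist z x := dist_triangle _ _ _
      _ ≤ r := by linarith

/-- gluing two solutions at a time `c`. -/
theorem FN_glue {X : E → E} {Ω : Set E} {a c d : ℝ} {η ζ : ℝ → E}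
    (h1 : Sol X Ω η (Icc a c)) (h2 : Sol X Ω ζ (Icc c d)) (hac : a ≤ c) (hcd : c ≤ d)
    (h : η c = ζ c) :
    Sol X Ω (fun t => if t ≤ c then η t else ζ t) (Icc a d) := by
  intro t ht
  rcases lt_trichotomy t c with htc | htc | htc
  · have h3 := h1 t ⟨ht.1, htc.le⟩
    refine ⟨by simpa [htc.le] using h3.1, ?_⟩
    have h4 : (fun t => if t ≤ c then η t else ζ t) =ᶠ[𝓝 t] η := by
      filter_upwards [Iio_mem_nhds htc] with s hs
      rw [if_pos (le_of_lt hs)]
    simpa [htc.le] using h3.2.congr_of_eventuallyEq h4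
  · subst htc
    have h3 := h1 t ⟨ht.1, le_rfl⟩
    have h4 := h2 t ⟨le_rfl, ht.2⟩
    refine ⟨by simpa using h3.1, ?_⟩
    have h5 : HasDerivWithinAt (fun s => if s ≤ t then η s else ζ s) (X (η t)) (Iic t) t := by
      refine h3.2.hasDerivWithinAt.congr (fun s hs => if_pos hs) (by simp)
    have h6 : HasDerivWithinAt (fun s => if s ≤ t then η s else ζ s) (X (η t)) (Ici t) t := by
      rw [h]
      refine h4.2.hasDerivWithinAt.congr (fun s hs => ?_) (by simp [h])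
      rcases eq_or_lt_of_le (mem_Ici.1 hs) with h7 | h7
      · subst h7; simp [h]
      · rw [if_neg (not_le.2 h7)]
    have h7 := h5.union h6
    rw [Iic_union_Ici, hasDerivWithinAt_univ] at h7
    simpa using h7
  · have h3 := h2 t ⟨htc.le, ht.2⟩
    refine ⟨by simpa [not_le.2 htc] using h3.1, ?_⟩
    have h4 : (fun t => if t ≤ c then η t else ζ t) =ᶠ[𝓝 t] ζ := by
      filter_upwards [Ioi_mem_nhds htc] with s hs
      rw [if_neg (not_le.2 hs)]
    simpa [not_le.2 htc] using h3.2.congr_of_eventuallyEq h4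

/-- F3': solutions starting near `γ 0` exist on the same compact interval. -/
theorem exists_sol_near [CompleteSpace E] {X : E → E} {Ω : Set E} (hΩ : IsOpen Ω)
    (hX : ∀ x ∈ Ω, ContDiffAt ℝ 1 X x) {a b : ℝ} (ha : a ≤ 0) (hb : 0 ≤ b) {γ : ℝ → E}
    (hγ : Sol X Ω γ (Icc a b)) :
    ∃ δ > 0, ∀ y : E, ‖y - γ 0‖ < δ → ∃ η : ℝ → E, η 0 = y ∧ Sol X Ω η (Icc a b) := by
  obtain ⟨r, hr, τ, hτ, hloc⟩ := FN_unif hΩ hX (isCompact_Icc.image_of_continuousOn hγ.continuousOn)
    (by rintro _ ⟨t, ht, rfl⟩; exact (hγ t ht).1)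
  set h : ℝ := τ / 2 with hh
  have hh0 : 0 < h := by positivity
  -- the induction
  have key : ∀ n : ℕ, ∃ δ > 0, ∀ y : E, ‖y - γ 0‖ < δ → ∃ η : ℝ → E, η 0 = y ∧
      Sol X Ω η (Icc (max a (-(n * h))) (min b (n * h))) := by
    intro n
    induction n with
    | zero =>
      refine ⟨r, hr, fun y hy => ?_⟩
      obtain ⟨η, h1, h2⟩ := hloc (γ 0) ⟨0, ⟨ha, hb⟩, rfl⟩ y (by rw [mem_closedBall, dist_eq_norm]; exact hy.le)
      refine ⟨η, h1, h2.mono ?_⟩
      intro t ht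
      simp only [Nat.cast_zero, zero_mul, neg_zero, max_eq_right ha, min_eq_right hb, Icc_self,
        mem_singleton_iff] at ht
      subst ht
      exact ⟨by linarith, hτ⟩
    | succ n ih =>
      obtain ⟨δ₁, hδ₁, ih⟩ := ih
      set a₁ : ℝ := max a (-(n * h)) with ha₁
      set b₁ : ℝ := min b (n * h) with hb₁
      have hnh : 0 ≤ n * h := by positivity
      have ha₁0 : a₁ ≤ 0 := max_le ha (by linarith)
      have hb₁0 : 0 ≤ b₁ := le_min hb hnh
      have haa : a ≤ a₁ := le_max_left _ _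
      have hbb : b₁ ≤ b := min_le_left _ _
      obtain ⟨δ₂, hδ₂, C, hC, hlip⟩ := sol_lipschitz hΩ hX ha₁0 hb₁0
        (hγ.mono (Icc_subset_Icc haa hbb))
      refine ⟨min δ₁ (min δ₂ (r / (C + 1))), lt_min hδ₁ (lt_min hδ₂ (by positivity)), fun y hy => ?_⟩
      obtain ⟨hy1, hy2⟩ := lt_min_iff.1 hy
      obtain ⟨hy2, hy3⟩ := lt_min_iff.1 hy2
      obtain ⟨η, hη0, hη⟩ := ih y hy1
      have hclose : ∀ t ∈ Icc a₁ b₁, η t ∈ closedBall (γ t) r := by
        intro t ht
        rw [mem_closedBall, dist_eq_norm]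
        have h3 := hlip η hη (by rw [hη0]; exact hy2) t ht
        rw [hη0] at h3
        rw [lt_div_iff₀ (by positivity)] at hy3
        nlinarith [norm_nonneg (y - γ 0)]
      -- extend to the right
      obtain ⟨ζ, hζ0, hζ⟩ := hloc (γ b₁) ⟨b₁, ⟨by linarith, hbb⟩, rfl⟩ (η b₁)
        (hclose b₁ ⟨by linarith, le_rfl⟩)
      have hζ' : Sol X Ω (fun t => ζ (t + -b₁)) (Icc b₁ (b₁ + h)) :=
        (hζ.shift (-b₁)).mono (fun t ht => by
          simp only [mem_Ioo, Set.mem_ofPred_eq]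
          constructor <;> linarith [ht.1, ht.2])
      have h5 := FN_glue hη hζ' (by linarith) (by linarith) (by simp [hζ0])
      -- extend to the left
      obtain ⟨ξ, hξ0, hξ⟩ := hloc (γ a₁) ⟨a₁, ⟨haa, by linarith⟩, rfl⟩ (η a₁)
        (hclose a₁ ⟨le_rfl, by linarith⟩)
      have hξ' : Sol X Ω (fun t => ξ (t + -a₁)) (Icc (a₁ - h) a₁) :=
        (hξ.shift (-a₁)).mono (fun t ht => by
          simp only [mem_Ioo, Set.mem_ofPred_eq]
          constructor <;> linarith [ht.1, ht.2])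
      have h6 := FN_glue hξ' h5 (by linarith) (by linarith) (by
        simp only [add_neg_cancel, hξ0]
        rw [if_pos (by linarith)])
      refine ⟨_, ?_, h6.mono (Icc_subset_Icc ?_ ?_)⟩
      · rcases eq_or_lt_of_le ha₁0 with h7 | h7
        · rw [if_pos (by linarith)]
          rw [← h7]; simp [hξ0]
          rw [h7]; exact hη0
        · rw [if_neg (by linarith), if_pos (by linarith)]
          exact hη0
      · rw [ha₁]
        push_cast
        rcases le_total a (-(n * h)) with h7 | h7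
        · rw [max_eq_right h7]
          exact le_trans (by linarith) (le_max_right _ _)
        · rw [max_eq_left h7]
          exact le_trans (by linarith) (le_max_left _ _)
      · rw [hb₁]
        push_cast
        rcases le_total b (n * h) with h7 | h7
        · rw [min_eq_left h7]
          exact le_trans (min_le_left _ _) (by linarith)
        · rw [min_eq_right h7]
          exact le_trans (min_le_right _ _) (by linarith)
  obtain ⟨n, hn⟩ := exists_nat_gt (max (-a) b / h)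
  rw [div_lt_iff₀ hh0] at hn
  obtain ⟨δ, hδ, h1⟩ := key n
  refine ⟨δ, hδ, fun y hy => ?_⟩
  obtain ⟨η, h2, h3⟩ := h1 y hy
  refine ⟨η, h2, ?_⟩
  have h4 := le_max_left (-a) b
  have h5 := le_max_right (-a) b
  rwa [max_eq_left (by linarith), min_eq_left (by linarith)] at h3

end Pool.Agent.helper25.B2
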